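import Pool.Agent.H.MP_b9874d_an.Defs

open Filter Topology Set
open scoped ZeroAtInfty

namespace Pool.Agent.H.MP_b9874d_an

lemma ratio_le (A : Set ℕ) (N : ℕ) : ((A ∩ Set.Icc 1 N).ncard : ℝ) / N ≤ 1 := by
  apply div_le_one_of_le₀ _ (Nat.cast_nonneg _)
  have := Set.ncard_le_ncard (inter_subset_right (s := A) (t := Icc 1 N)) (finite_Icc _ _)
  rw [← Finset.coe_Icc, Set.ncard_coe_finset, Nat.card_Icc] at this
  rw [← Finset.coe_Icc]
  exact_mod_cast this

lemma ud_pos {A : Set ℕ} {δ : ℝ} (hδ : 0 < δ)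
    (h : ∃ᶠ N : ℕ in atTop, δ ≤ ((A ∩ Set.Icc 1 N).ncard : ℝ) / N) : 0 < upperDensity A :=
  hδ.trans_le (le_limsup_of_frequently_le h (isBoundedUnder_of ⟨1, ratio_le A⟩))

lemma ud_freq {A : Set ℕ} (h : 0 < upperDensity A) :
    ∃ δ : ℝ, 0 < δ ∧ ∃ᶠ N : ℕ in atTop, δ * N < ((A ∩ Set.Icc 1 N).ncard : ℝ) := by
  refine ⟨upperDensity A / 2, half_pos h, ?_⟩
  have := frequently_lt_of_lt_limsup (isCoboundedUnder_le_of_le atTop (x := 0) fun N : ℕ => by
    positivity) (half_lt_self h)
  refine (this.and_eventually (eventually_gt_atTop 0)).mono fun N hN => ?_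
  have : (0 : ℝ) < N := by exact_mod_cast hN.2
  exact (lt_div_iff₀ this).1 hN.1

/-- exponent condition -/
def Big (k : ℕ) (i : ℤ) : Prop :=
  (k : ℤ) ≤ i ∨ ∃ (l : ℕ) (j : ℤ), 1 ≤ j ∧ (k : ℤ) + |i + j * 4 ^ l| ≤ l

lemma two_le (l : ℕ) : 2 * (l : ℤ) ≤ 4 ^ l := by
  have : l < 2 ^ l := Nat.lt_two_pow_self
  have h2 : (l : ℤ) + 1 ≤ 2 ^ l := by exact_mod_cast this
  have : (4 : ℤ) ^ l = 2 ^ l * 2 ^ l := by rw [← mul_pow]; norm_num
  nlinarith

lemma Big_bdd (i : ℤ) : BddAbove {k | Big k i} := by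
  refine ⟨i.natAbs, fun k hk => ?_⟩
  have : (k : ℤ) ≤ |i| := by
    rcases hk with h | ⟨l, j, hj, h⟩
    · exact h.trans (le_abs_self _)
    · have h1 := two_le l
      have h2 : (4 : ℤ) ^ l ≤ j * 4 ^ l := le_mul_of_one_le_left (by positivity) hj
      have h3 := le_abs_self (i + j * 4 ^ l)
      have h4 := neg_abs_le i
      have h5 := abs_nonneg (i + j * 4 ^ l)
      linarith
  rw [Int.abs_eq_natAbs] at this
  exact_mod_cast this

/-- the exponent -/
noncomputable def ex (i : ℤ) : ℕ := sSup {k | Big k i}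

lemma le_ex {k : ℕ} {i : ℤ} (h : Big k i) : k ≤ ex i := le_csSup (Big_bdd i) h

lemma big_ex {i : ℤ} (h : 0 < ex i) : Big (ex i) i := by
  refine Nat.sSup_mem (s := {k | Big k i}) ?_ (Big_bdd i)
  by_contra hne
  rw [not_nonempty_iff_eq_empty] at hne
  simp [ex, hne] at h

lemma ex_succ (i : ℤ) : ex (i + 1) ≤ ex i + 1 := by
  rcases Nat.eq_zero_or_pos (ex (i + 1)) with h | h
  · omega
  · have hb := big_ex h
    obtain ⟨k, hk⟩ : ∃ k, ex (i + 1) = k + 1 := ⟨ex (i + 1) - 1, by omega⟩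
    rw [hk] at hb ⊢
    refine Nat.succ_le_succ (le_ex ?_)
    rcases hb with h | ⟨l, j, hj, h⟩
    · left
      push_cast at h
      linarith
    · right
      refine ⟨l, j, hj, ?_⟩
      push_cast at h
      have := abs_sub (i + 1 + j * 4 ^ l) 1
      rw [abs_one, show i + 1 + j * 4 ^ l - 1 = i + j * 4 ^ l by ring] at this
      linarith

/-- the weight -/
noncomputable def W (i : ℤ) : ℝ := 2 ^ ex i

lemma W_pos (i : ℤ) : 0 < W i := by unfold W; positivity

lemma W_succ (i : ℤ) : W (i + 1) / W i ≤ 2 := by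
  rw [div_le_iff₀ (W_pos i), W, W, ← pow_succ']
  exact pow_le_pow_right₀ (by norm_num) (ex_succ i)

lemma shift_norm (x : C₀(ℤ, ℂ)) (i : ℤ) : ‖x (i + 1) * ((W (i + 1) / W i : ℝ) : ℂ)‖ ≤ 2 * ‖x (i + 1)‖ := by
  rw [norm_mul, Complex.norm_real, Real.norm_of_nonneg (div_pos (W_pos _) (W_pos _)).le, mul_comm]
  exact mul_le_mul_of_nonneg_right (W_succ i) (norm_nonneg _)

lemma coord_le (x : C₀(ℤ, ℂ)) (i : ℤ) : ‖x i‖ ≤ ‖x‖ := x.toBCF.norm_coe_le_norm i

lemma norm_le_of (x : C₀(ℤ, ℂ)) {C : ℝ} (h : ∀ i, ‖x i‖ ≤ C) : ‖x‖ ≤ C :=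
  (BoundedContinuousFunction.norm_le ((norm_nonneg _).trans (h 0))).2 h

/-- the weighted shift as a linear map -/
noncomputable def T0 : C₀(ℤ, ℂ) →ₗ[ℂ] C₀(ℤ, ℂ) where
  toFun x :=
    { toFun := fun i => x (i + 1) * ((W (i + 1) / W i : ℝ) : ℂ)
      continuous_toFun := continuous_of_discreteTopology
      zero_at_infty' := by
        refine squeeze_zero_norm (shift_norm x) ?_
        have h1 : Tendsto (fun i : ℤ => i + 1) (cocompact ℤ) (cocompact ℤ) := by
          rw [cocompact_eq_cofinite]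
          exact (add_left_injective 1).tendsto_cofinite
        simpa using ((x.zero_at_infty'.comp h1).norm).const_mul 2 }
  map_add' x y := by ext i; simp [add_mul]
  map_smul' c x := by ext i; simp [mul_assoc]

/-- the weighted shift -/
noncomputable def T : C₀(ℤ, ℂ) →L[ℂ] C₀(ℤ, ℂ) :=
  T0.mkContinuous 2 fun x => norm_le_of _ fun i =>
    (shift_norm x i).trans (mul_le_mul_of_nonneg_left (coord_le x _) zero_le_two)

lemma T_pow (n : ℕ) (x : C₀(ℤ, ℂ)) (i : ℤ) :
    (T ^ n) x i = x (i + n) * W (i + n) / W i := by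
  have hW : ∀ i, ((W i : ℝ) : ℂ) ≠ 0 := fun i => by exact_mod_cast (W_pos i).ne'
  induction n generalizing i with
  | zero => simp [hW]
  | succ n ih =>
    rw [pow_succ']
    change (T ^ n) x (i + 1) * ((W (i + 1) / W i : ℝ) : ℂ) = _
    rw [ih]
    have e : i + 1 + n = i + (n + 1 : ℕ) := by push_cast; ring
    rw [e]
    push_cast
    field_simp [hW]

lemma tail (x : C₀(ℤ, ℂ)) {ε : ℝ} (hε : 0 < ε) : ∃ p : ℕ, ∀ i : ℤ, (p : ℤ) < |i| → ‖x i‖ < ε := by
  have h := x.zero_at_infty'.norm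
  rw [cocompact_eq_cofinite, norm_zero] at h
  have h2 := (eventually_cofinite.1 (h.eventually (gt_mem_nhds hε))).image Int.natAbs
  obtain ⟨p, hp⟩ := h2.bddAbove
  refine ⟨p, fun i hi => ?_⟩
  by_contra hc
  have := hp ⟨i, hc, rfl⟩
  rw [Int.abs_eq_natAbs] at hi
  omega

theorem propA : PropA T := by
  intro U hU ⟨y, hy⟩
  obtain ⟨ε, hε, hball⟩ := Metric.isOpen_iff.1 hU y hy
  obtain ⟨p, hp⟩ := tail y (by positivity : 0 < ε / 4)
  have hW : ∀ i, ((W i : ℝ) : ℂ) ≠ 0 := fun i => by exact_mod_cast (W_pos i).ne'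
  let c : ℤ → ℂ := fun t => if |t| ≤ p then y t * W t else 0
  obtain ⟨C, hC0, hC⟩ : ∃ C : ℝ, 0 ≤ C ∧ ∀ t, ‖c t‖ ≤ C := by
    refine ⟨∑ t ∈ Finset.Icc (-p : ℤ) p, ‖c t‖, by positivity, fun t => ?_⟩
    by_cases ht : |t| ≤ p
    · exact Finset.single_le_sum (f := fun t => ‖c t‖) (fun _ _ => norm_nonneg _)
        (Finset.mem_Icc.2 (abs_le.1 ht))
    · simp only [c, if_neg ht, norm_zero]
      positivity
  obtain ⟨a, ha⟩ := pow_unbounded_of_one_lt (C / (ε / 4)) (by norm_num : (1 : ℝ) < 2)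
  set l := a + p + 1 with hl
  set q : ℤ := 4 ^ l with hq
  have hq2 : 2 * (a + p + 1 : ℤ) ≤ q := by have := two_le l; push_cast [hl] at this; exact this
  have hq0 : 0 < q := by positivity
  let x : C₀(ℤ, ℂ) :=
    { toFun := fun i => if -(p : ℤ) ≤ i then c ((i + p) % q - p) / W i else 0
      continuous_toFun := continuous_of_discreteTopology
      zero_at_infty' := by
        rw [cocompact_eq_cofinite, Int.cofinite_eq, tendsto_sup]
        constructor
        · refine tendsto_const_nhds.congr' ?_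
          filter_upwards [eventually_lt_atBot (-(p : ℤ))] with i hi
          rw [if_neg (not_le.2 hi)]
        · refine squeeze_zero_norm' (a := fun i : ℤ => C * (1 / 2) ^ i.toNat) ?_ ?_
          · filter_upwards [eventually_ge_atTop 0] with i hi
            rw [if_pos (by omega), norm_div, Complex.norm_real, Real.norm_of_nonneg (W_pos i).le,
              one_div, inv_pow, ← div_eq_mul_inv]
            have : (2 : ℝ) ^ i.toNat ≤ W i :=
              pow_le_pow_right₀ (by norm_num) (le_ex (Or.inl (by omega)))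
            gcongr
            exact hC _
          · have := (tendsto_pow_atTop_nhds_zero_of_lt_one (r := (1 / 2 : ℝ)) (by norm_num)
              (by norm_num)).comp (tendsto_atTop.2 fun b => (eventually_ge_atTop (b : ℤ)).mono
                fun i hi => show b ≤ Int.toNat i by omega)
            simpa using this.const_mul C }
  have key : ∀ k : ℕ, (T ^ (k * 4 ^ l)) x ∈ U := by
    intro k
    apply hball
    rw [Metric.mem_ball, dist_eq_norm]
    refine lt_of_le_of_lt (norm_le_of _ (C := ε / 2) fun i => ?_) (half_lt_self hε)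
    have e : (T ^ (k * 4 ^ l)) x i =
        if -(p : ℤ) ≤ i + k * q then c ((i + p) % q - p) / W i else 0 := by
      rw [T_pow]
      have e1 : i + ((k * 4 ^ l : ℕ) : ℤ) = i + k * q := by push_cast; rfl
      rw [e1]
      change (if -(p : ℤ) ≤ i + k * q then c ((i + k * q + p) % q - p) / W (i + k * q) else 0) * _ / _ = _
      split_ifs
      · rw [show i + k * q + p = i + p + q * k by ring, Int.add_mul_emod_self_left]
        field_simp [hW]
      · simp
    rw [ZeroAtInftyContinuousMap.sub_apply, e]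
    by_cases hi : |i| ≤ p
    · have h1 := abs_le.1 hi
      have h2 : 0 ≤ (k : ℤ) * q := by positivity
      rw [if_pos (by linarith), Int.emod_eq_of_lt (by linarith) (by linarith), add_sub_cancel_right]
      simp only [c, if_pos hi]
      rw [mul_div_cancel_right₀ _ (hW i), sub_self, norm_zero]
      positivity
    · refine (norm_sub_le _ _).trans ?_
      have h1 := hp i (not_le.1 hi)
      suffices ‖c ((i + p) % q - p) / W i‖ ≤ ε / 4 by
        split_ifs
        · linarith
        · rw [norm_zero]; linarith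
      by_cases ht : |(i + p) % q - p| ≤ p
      swap
      · simp only [c, if_neg ht, zero_div, norm_zero]
        positivity
      have h2 := Int.emod_add_mul_ediv (i + p) q
      set t := (i + p) % q - p with htdef
      set j := (i + p) / q with hj
      have h3 : i = t + j * q := by rw [htdef]; linarith
      have h4 := abs_le.1 ht
      have hb : Big a i := by
        rcases lt_trichotomy j 0 with h | h | h
        · refine Or.inr ⟨l, -j, by omega, ?_⟩
          rw [← hq, show i + -j * q = t by rw [h3]; ring, hl]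
          push_cast
          linarith
        · exact absurd (by rw [h3, h, zero_mul, add_zero]; exact ht) hi
        · left
          have : q ≤ j * q := le_mul_of_one_le_left hq0.le (by omega)
          linarith
      have h5 : (2 : ℝ) ^ a ≤ W i := pow_le_pow_right₀ (by norm_num) (le_ex hb)
      rw [norm_div, Complex.norm_real, Real.norm_of_nonneg (W_pos i).le, div_le_iff₀ (W_pos i)]
      rw [div_lt_iff₀ (by positivity)] at ha
      nlinarith [hC t]
  refine ⟨x, ud_pos (δ := 1 / 4 ^ l) (by positivity) (frequently_atTop.2 fun N => ?_)⟩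
  refine ⟨(N + 1) * 4 ^ l, by nlinarith [Nat.one_le_pow l 4 (by norm_num)], ?_⟩
  have h1 : (fun k => k * 4 ^ l) '' Icc 1 (N + 1) ⊆
      {n | (T ^ n) x ∈ U} ∩ Icc 1 ((N + 1) * 4 ^ l) := by
    rintro _ ⟨k, hk, rfl⟩
    exact ⟨key k, Nat.mul_pos hk.1 (by positivity), Nat.mul_le_mul_right _ hk.2⟩
  have h2 := Set.ncard_le_ncard h1 ((finite_Icc _ _).inter_of_right _)
  rw [Set.ncard_image_of_injective _ (mul_left_injective₀ (by positivity)), ← Finset.coe_Icc,
    Set.ncard_coe_finset, Nat.card_Icc, Nat.add_sub_cancel] at h2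
  rw [le_div_iff₀ (by positivity)]
  have h3 : ((N + 1 : ℕ) : ℝ) ≤ _ := Nat.cast_le.2 h2
  refine le_trans (le_of_eq ?_) h3
  push_cast
  field_simp

end Pool.Agent.H.MP_b9874d_an
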