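import Pool.Agent.H.MP_b9874d_an.A

open Filter Topology Set
open scoped ZeroAtInfty

namespace Pool.Agent.H.MP_b9874d_an

lemma cnt0 (q w j0 j1 : ℤ) (hw : 0 ≤ w) (S : Finset ℤ)
    (h : ∀ d ∈ S, ∃ j, j0 ≤ j ∧ j ≤ j1 ∧ |d - j * q| < w) :
    (S.card : ℤ) ≤ max (j1 + 1 - j0) 0 * (2 * w) := by
  have h1 : S ⊆ (Finset.Icc j0 j1 ×ˢ Finset.Ico (-w) w).image fun p => p.1 * q + p.2 := by
    intro d hd
    obtain ⟨j, h1, h2, h3⟩ := h d hd
    refine Finset.mem_image.2 ⟨(j, d - j * q), ?_, by ring⟩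
    rw [abs_lt] at h3
    simp only [Finset.mem_product, Finset.mem_Icc, Finset.mem_Ico]
    exact ⟨⟨h1, h2⟩, h3.1.le, h3.2⟩
  have h2 := (Finset.card_le_card h1).trans Finset.card_image_le
  rw [Finset.card_product, Int.card_Icc, Int.card_Ico] at h2
  have h3 : ((S.card : ℕ) : ℤ) ≤ ((j1 + 1 - j0).toNat * (w - -w).toNat : ℕ) := by exact_mod_cast h2
  rw [Nat.cast_mul, Int.toNat_eq_max, Int.toNat_of_nonneg (by linarith : 0 ≤ w - -w)] at h3
  convert h3 using 2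
  ring

lemma cnt1 {q w lo N : ℤ} (hw : 0 ≤ w) (hq : 0 < q) (hwq : 2 * w ≤ q) (hN : 0 ≤ N) (S : Finset ℤ)
    (h : ∀ d ∈ S, lo ≤ d ∧ d ≤ lo + N ∧ ∃ j, |d - j * q| < w) :
    (S.card : ℝ) ≤ (N / q + 3) * (2 * w) := by
  have h1 := cnt0 q w ((lo - w) / q) ((lo + N + w) / q) hw S fun d hd => by
    obtain ⟨h1, h2, j, h3⟩ := h d hd
    rw [abs_lt] at h3
    refine ⟨j, ?_, ?_, abs_lt.2 h3⟩
    · exact Int.ediv_le_of_le_mul hq (by linarith)
    · exact Int.le_ediv_of_mul_le hq (by linarith)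
  have a1 := Int.ediv_mul_le (lo + N + w) hq.ne'
  have a2 := Int.lt_ediv_add_one_mul_self (lo - w) hq
  have hq' : (0 : ℝ) < q := by exact_mod_cast hq
  have a3 : max ((lo + N + w) / q + 1 - (lo - w) / q) 0 * q ≤ N + 3 * q := by
    rcases le_total ((lo + N + w) / q + 1 - (lo - w) / q) 0 with h | h
    · rw [max_eq_right h]; linarith
    · rw [max_eq_left h]; nlinarith
  generalize max ((lo + N + w) / q + 1 - (lo - w) / q) 0 = A at h1 a3
  have a4 : (A : ℝ) ≤ N / q + 3 := by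
    rw [div_add' _ _ _ hq'.ne', le_div_iff₀ hq']
    exact_mod_cast a3
  have hw' : (0 : ℝ) ≤ w := by exact_mod_cast hw
  calc (S.card : ℝ) ≤ A * (2 * w) := by exact_mod_cast h1
    _ ≤ _ := by gcongr

lemma cnt2 {q w M : ℤ} (hw : 0 ≤ w) (hq : 0 < q) (hwq : 2 * w ≤ q) (hM : 0 ≤ M) (S : Finset ℤ)
    (h : ∀ d ∈ S, d ≤ M ∧ ∃ j, 1 ≤ j ∧ |d - j * q| < w) :
    (S.card : ℝ) ≤ 4 * w / q * M := by
  have hq' : (0 : ℝ) < q := by exact_mod_cast hq
  have hw' : (0 : ℝ) ≤ w := by exact_mod_cast hw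
  have hM' : (0 : ℝ) ≤ M := by exact_mod_cast hM
  rcases S.eq_empty_or_nonempty with rfl | ⟨d, hd⟩
  · simp only [Finset.card_empty, Nat.cast_zero]
    positivity
  have hwM : w ≤ M := by
    obtain ⟨h1, j, h2, h3⟩ := h d hd
    have : q ≤ j * q := le_mul_of_one_le_left hq.le h2
    linarith [(abs_lt.1 h3).1]
  have h1 := cnt0 q w 1 ((M + w) / q) hw S fun d hd => by
    obtain ⟨h1, j, h2, h3⟩ := h d hd
    exact ⟨j, h2, Int.le_ediv_of_mul_le hq (by linarith [(abs_lt.1 h3).1]), h3⟩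
  rw [add_sub_cancel_right, max_eq_left (Int.ediv_nonneg (by linarith) hq.le)] at h1
  have a1 := Int.ediv_mul_le (M + w) hq.ne'
  generalize (M + w) / q = A at h1 a1
  have a4 : (A : ℝ) ≤ 2 * M / q := by
    rw [le_div_iff₀ hq']
    exact_mod_cast (by linarith : A * q ≤ 2 * M)
  calc (S.card : ℝ) ≤ A * (2 * w) := by exact_mod_cast h1
    _ ≤ 2 * M / q * (2 * w) := by gcongr
    _ = _ := by ring

lemma geo (a b : ℕ) : ∑ k ∈ Finset.Ioc a b, (1 / 2 : ℝ) ^ k ≤ (1 / 2) ^ a := by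
  have := geom_sum_Ico_le_of_lt_one (x := (1 / 2 : ℝ)) (m := a + 1) (n := b + 1) (by norm_num)
    (by norm_num)
  rw [Finset.Ico_add_one_add_one_eq_Ioc] at this
  refine this.trans (le_of_eq ?_)
  rw [pow_succ]
  norm_num

lemma four (k : ℕ) : (2 : ℝ) ^ k / 4 ^ k = (1 / 2) ^ k := by
  rw [← div_pow]; norm_num

theorem coord_zero {x : C₀(ℤ, ℂ)} (hx : UFRecVec T x) : x 0 = 0 := by
  classical
  by_contra h0
  have hγ : 0 < ‖x 0‖ := norm_pos_iff.2 h0
  have hev : Continuous fun z : C₀(ℤ, ℂ) => z 0 := by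
    refine (LipschitzWith.of_dist_le_mul (K := 1) fun y z => ?_).continuous
    simpa [dist_eq_norm] using coord_le (y - z) 0
  obtain ⟨δ, hδ, hR⟩ := ud_freq (hx {z | ‖x 0‖ / 2 < ‖z 0‖} (isOpen_lt continuous_const hev.norm)
    (half_lt_self hγ))
  obtain ⟨l, hl⟩ := exists_pow_lt_of_lt_one (by positivity : 0 < δ / 4) (by norm_num : (1 / 2 : ℝ) < 1)
  set η := ‖x 0‖ * W 0 / (4 * 2 ^ l) with hη
  have hη0 : 0 < η := by have := W_pos 0; positivity
  obtain ⟨ρ, hρ, hE⟩ := ud_freq (hx (Metric.ball x η) Metric.isOpen_ball (Metric.mem_ball_self hη0))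
  obtain ⟨L, hL⟩ := tail x hη0
  have hK : Tendsto (fun N => Nat.clog 2 N) atTop atTop := by
    refine tendsto_atTop.2 fun b => (eventually_gt_atTop (2 ^ b)).mono fun N hN => ?_
    exact ((Nat.lt_clog_iff_pow_lt (by norm_num)).2 hN).le
  have e1 : ∀ᶠ K : ℕ in atTop, (K : ℝ) ^ 2 / 2 ^ K < δ / 24 :=
    (tendsto_pow_const_div_const_pow_of_one_lt 2 (by norm_num : (1 : ℝ) < 2)).eventually
      (gt_mem_nhds (by positivity))
  have e2 : ∀ᶠ K : ℕ in atTop, (1 / 2 : ℝ) ^ K < ρ / 16 :=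
    (tendsto_pow_atTop_nhds_zero_of_lt_one (by norm_num) (by norm_num)).eventually
      (gt_mem_nhds (by positivity))
  obtain ⟨N, hN, ⟨k1, k2, k3⟩, hN1⟩ := (hR.and_eventually ((hK.eventually
    (e1.and (e2.and (eventually_ge_atTop 2)))).and (eventually_gt_atTop 1))).exists
  set K := Nat.clog 2 N with hKdef
  have hNK : N ≤ 2 ^ K := Nat.le_pow_clog (by norm_num) N
  have hKN : 2 ^ K < 2 * N := by
    have := Nat.pow_pred_clog_lt_self (b := 2) (by norm_num) hN1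
    rw [← hKdef] at this
    obtain ⟨K', hK'⟩ : ∃ K', K = K' + 1 := ⟨K - 1, by omega⟩
    rw [hK'] at this ⊢
    rw [pow_succ]
    simp only [Nat.pred_succ] at this
    omega
  have hM : ∀ᶠ M : ℕ in atTop, ((N + L : ℕ) : ℝ) ≤ ρ / 2 * M :=
    (tendsto_natCast_atTop_atTop.const_mul_atTop (by positivity : 0 < ρ / 2)).eventually_ge_atTop _
  obtain ⟨M, hM1, hM2⟩ := (hE.and_eventually hM).exists
  have hwk : ∀ k, K < k → ((k + N : ℕ) : ℝ) ≤ 2 * 2 ^ k := by
    intro k hk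
    have a1 : k < 2 ^ k := Nat.lt_two_pow_self
    have a2 : 2 ^ K ≤ 2 ^ k := Nat.pow_le_pow_right (by norm_num) hk.le
    exact_mod_cast (by omega : k + N ≤ 2 * 2 ^ k)
  obtain ⟨m, hm, hmL, hmB⟩ : ∃ m : ℕ, (T ^ m) x ∈ Metric.ball x η ∧ N + L < m ∧
      ∀ k, K < k → ∀ j : ℤ, 1 ≤ j → ¬ |(m : ℤ) - j * 4 ^ k| < (k + N : ℕ) := by
    by_contra hcon
    push Not at hcon
    let S : ℕ → Finset ℤ := fun k => (Finset.Icc (1 : ℤ) M).filter
      fun d => ∃ j : ℤ, 1 ≤ j ∧ |d - j * 4 ^ k| < (k + N : ℕ)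
    have hw : ∀ k, K < k → 2 * ((k + N : ℕ) : ℤ) ≤ 4 ^ k := by
      intro k hk
      have a1 : ((k + N : ℕ) : ℤ) ≤ 2 * 2 ^ k := by exact_mod_cast hwk k hk
      have a2 : (2 : ℤ) ^ 2 ≤ 2 ^ k := pow_le_pow_right₀ (by norm_num) (by omega)
      have : (4 : ℤ) ^ k = 2 ^ k * 2 ^ k := by rw [← mul_pow]; norm_num
      nlinarith
    have hsub : ((↑) : ℕ → ℤ) '' ({n | (T ^ n) x ∈ Metric.ball x η} ∩ Icc 1 M) ⊆
        ↑(Finset.Icc (1 : ℤ) (N + L : ℕ) ∪ (Finset.Ioc K M).biUnion S) := by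
      rintro _ ⟨n, ⟨hn, hn1, hn2⟩, rfl⟩
      rw [Finset.mem_coe, Finset.mem_union]
      by_cases hc : N + L < n
      · right
        obtain ⟨k, hk, j, hj, h⟩ := hcon n hn hc
        refine Finset.mem_biUnion.2 ⟨k, Finset.mem_Ioc.2 ⟨hk, ?_⟩, Finset.mem_filter.2
          ⟨Finset.mem_Icc.2 ⟨by omega, by omega⟩, j, hj, h⟩⟩
        have a1 := hw k hk
        have a2 : (4 : ℤ) ^ k ≤ j * 4 ^ k := le_mul_of_one_le_left (by positivity) hj
        have a3 := (abs_lt.1 h).1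
        omega
      · left
        exact Finset.mem_Icc.2 ⟨by omega, by omega⟩
    have c1 := Set.ncard_le_ncard hsub (Finset.finite_toSet _)
    rw [Set.ncard_image_of_injective _ Nat.cast_injective, Set.ncard_coe_finset] at c1
    have c2 := c1.trans ((Finset.card_union_le _ _).trans
      (add_le_add le_rfl Finset.card_biUnion_le))
    rw [Int.card_Icc, add_sub_cancel_right, Int.toNat_natCast] at c2
    have c3 : ∑ k ∈ Finset.Ioc K M, ((S k).card : ℝ) ≤ ∑ k ∈ Finset.Ioc K M, 8 * (M : ℝ) * (1 / 2 : ℝ) ^ k := by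
      refine Finset.sum_le_sum fun k hk => ?_
      have hk' := (Finset.mem_Ioc.1 hk).1
      refine (cnt2 (q := 4 ^ k) (w := (k + N : ℕ)) (M := M) (by positivity) (by positivity)
        (hw k hk') (by positivity) _ fun d hd => ?_).trans ?_
      · exact ⟨(Finset.mem_Icc.1 (Finset.mem_filter.1 hd).1).2, (Finset.mem_filter.1 hd).2⟩
      · rw [← four, Int.cast_natCast, Int.cast_natCast, Int.cast_pow, Int.cast_ofNat]
        have := hwk k hk'
        calc _ ≤ 4 * (2 * 2 ^ k) / 4 ^ k * (M : ℝ) := by gcongr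
          _ = _ := by ring
    rw [← Finset.mul_sum] at c3
    have c4 : 8 * (M : ℝ) * ∑ k ∈ Finset.Ioc K M, (1 / 2 : ℝ) ^ k ≤ 8 * M * (ρ / 16) := by
      gcongr
      exact (geo K M).trans k2.le
    have c5 : (({n | (T ^ n) x ∈ Metric.ball x η} ∩ Icc 1 M).ncard : ℝ) ≤
        (N + L : ℕ) + ∑ k ∈ Finset.Ioc K M, ((S k).card : ℝ) := by exact_mod_cast c2
    linarith
  let S : ℕ → Finset ℤ := fun k => (Finset.Icc ((m : ℤ) - N) m).filter
    fun d => ∃ j : ℤ, |d - j * 4 ^ k| < k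
  have hsub : (fun n : ℕ => (m : ℤ) - n) '' ({n | (T ^ n) x ∈ {z : C₀(ℤ, ℂ) | ‖x 0‖ / 2 < ‖z 0‖}} ∩
      Icc 1 N) ⊆ ↑((Finset.Ioc l K).biUnion S) := by
    rintro _ ⟨n, ⟨hn, hn1, hn2⟩, rfl⟩
    have hlt : l < ex (n - m) := by
      by_contra hc
      have a1 : W (n - m) ≤ 2 ^ l := pow_le_pow_right₀ (by norm_num) (not_lt.1 hc)
      have a2 := hL (n - m) (by rw [abs_sub_comm, abs_of_nonneg (by omega)]; omega)
      have a3 := (coord_le ((T ^ m) x - x) (n - m)).trans_lt (by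
        simpa [dist_eq_norm] using hm : ‖(T ^ m) x - x‖ < η)
      rw [ZeroAtInftyContinuousMap.sub_apply, T_pow, sub_add_cancel] at a3
      have a4 : ‖x 0‖ / 2 < ‖(T ^ n) x 0‖ := hn
      rw [T_pow, zero_add, norm_div, Complex.norm_real, Real.norm_of_nonneg (W_pos _).le,
        lt_div_iff₀ (W_pos _)] at a4
      have a5 := norm_sub_norm_le (x n * W n / W (n - m)) (x (n - m))
      have a6 : ‖x n * W n / W (n - m)‖ < 2 * η := by linarith
      rw [norm_div, Complex.norm_real, Real.norm_of_nonneg (W_pos _).le,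
        div_lt_iff₀ (W_pos _)] at a6
      have a7 : 2 * η * W (n - m) ≤ 2 * η * 2 ^ l := by gcongr
      have a8 : 2 * η * 2 ^ l = ‖x 0‖ / 2 * W 0 := by rw [hη]; field_simp; ring
      linarith
    rcases big_ex (by omega : 0 < ex (n - m)) with h | ⟨k, j, hj, h⟩
    · omega
    have a1 := abs_nonneg ((n : ℤ) - m + j * 4 ^ k)
    have a2 : |(m : ℤ) - n - j * 4 ^ k| < k := by
      rw [show (m : ℤ) - n - j * 4 ^ k = -(n - m + j * 4 ^ k) by ring, abs_neg]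
      omega
    refine Finset.mem_coe.2 (Finset.mem_biUnion.2 ⟨k, Finset.mem_Ioc.2 ⟨by omega, ?_⟩,
      Finset.mem_filter.2 ⟨Finset.mem_Icc.2 ⟨by simp only; omega, by simp only; omega⟩, j, a2⟩⟩)
    by_contra hc
    refine hmB k (not_le.1 hc) j hj ?_
    rw [abs_lt] at a2 ⊢
    push_cast
    omega
  have c1 := Set.ncard_le_ncard hsub (Finset.finite_toSet _)
  rw [Set.ncard_image_of_injective _ (fun a b hab => by simpa using hab), Set.ncard_coe_finset] at c1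
  have c2 := c1.trans Finset.card_biUnion_le
  have c3 : ∑ k ∈ Finset.Ioc l K, ((S k).card : ℝ) ≤
      ∑ k ∈ Finset.Ioc l K, (2 * (N : ℝ) * (1 / 2 : ℝ) ^ k + 6 * (K : ℝ)) := by
    refine Finset.sum_le_sum fun k hk => ?_
    refine (cnt1 (q := 4 ^ k) (w := k) (lo := m - N) (N := N) (by positivity) (by positivity)
      (two_le k) (by positivity) _ fun d hd => ?_).trans ?_
    · obtain ⟨h1, h2⟩ := Finset.mem_filter.1 hd
      exact ⟨(Finset.mem_Icc.1 h1).1, by linarith [(Finset.mem_Icc.1 h1).2], h2⟩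
    · rw [← four, Int.cast_natCast, Int.cast_natCast, Int.cast_pow, Int.cast_ofNat]
      have a1 : (k : ℝ) ≤ 2 ^ k := by exact_mod_cast (Nat.lt_two_pow_self (n := k)).le
      have a2 : (k : ℝ) ≤ K := by exact_mod_cast (Finset.mem_Ioc.1 hk).2
      calc _ = 2 * N * (k / 4 ^ k) + 6 * (k : ℝ) := by ring
        _ ≤ _ := by gcongr
  rw [Finset.sum_add_distrib, ← Finset.mul_sum, Finset.sum_const, Nat.card_Ioc, nsmul_eq_mul] at c3
  have c4 : 2 * (N : ℝ) * ∑ k ∈ Finset.Ioc l K, (1 / 2 : ℝ) ^ k ≤ 2 * N * (δ / 4) := by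
    gcongr
    exact (geo l K).trans hl.le
  have c5 : ((K - l : ℕ) : ℝ) * (6 * K) ≤ K * (6 * K) := by
    gcongr
    omega
  rw [div_lt_iff₀ (by positivity)] at k1
  have c6 : (2 : ℝ) ^ K ≤ 2 * N := by exact_mod_cast hKN.le
  have c7 : δ / 24 * 2 ^ K ≤ δ / 24 * (2 * N) := by gcongr
  have c8 := (Nat.cast_le (α := ℝ)).2 c2
  rw [Nat.cast_sum] at c8
  nlinarith

theorem not_dense : ¬ Dense {x : C₀(ℤ, ℂ) | UFRecVec T x} := by
  intro h
  let e : C₀(ℤ, ℂ) :=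
    { toFun := fun i => if i = 0 then 1 else 0
      continuous_toFun := continuous_of_discreteTopology
      zero_at_infty' := by
        rw [cocompact_eq_cofinite]
        refine tendsto_const_nhds.congr' ?_
        filter_upwards [eventually_cofinite_ne 0] with i hi
        rw [if_neg hi] }
  obtain ⟨x, hx, hd⟩ := h.exists_dist_lt e one_pos
  have := coord_le (e - x) 0
  rw [ZeroAtInftyContinuousMap.sub_apply, coord_zero hx, sub_zero, ← dist_eq_norm] at this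
  have e0 : e 0 = 1 := by show (if (0 : ℤ) = 0 then (1 : ℂ) else 0) = 1; simp
  rw [e0, norm_one] at this
  linarith

end Pool.Agent.H.MP_b9874d_an
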