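import Mathlib

open Filter

namespace Pool.Agent.H.MP_b9874d_an

/-- Upper density of a set of natural numbers. -/
noncomputable def upperDensity (A : Set ℕ) : ℝ :=
  limsup (fun N : ℕ => ((A ∩ Set.Icc 1 N).ncard : ℝ) / N) atTop

variable {X : Type} [NormedAddCommGroup X] [NormedSpace ℂ X]

/-- Property A. -/
def PropA (T : X →L[ℂ] X) : Prop :=
  ∀ U : Set X, IsOpen U → U.Nonempty → ∃ x : X, 0 < upperDensity {n | (T ^ n) x ∈ U}

/-- U-frequently recurrent vectors. -/
def UFRecVec (T : X →L[ℂ] X) (x : X) : Prop :=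
  ∀ V : Set X, IsOpen V → x ∈ V → 0 < upperDensity {n | (T ^ n) x ∈ V}

end Pool.Agent.H.MP_b9874d_an
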